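import Pool.Agent.Q274.XL.Base
import Pool.Agent.H249.TR.Fam
import Pool.Agent.H249.TR.Inf

/-!
# The Bloch–Kato formula for one Hilbert modular form over all number fields in an infinite totally real field

`g` is the newform of level 14 and weight 2, the form of the elliptic curve `E = X_0(14)`, `y² + xy + y = x³ + 4x - 6`.
It has a base change `g_F` to every totally real abelian field `F`, a cuspidal Hilbert newform of parallel weight
two with rational Hecke eigenvalues and trivial central character; `V_{g,2}` is the restriction of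
`V_2 E = T_2 E ⊗ ℚ_2` and `L(g_F, s) = L(E/F, s + 1)`.

The class consists of the squarefree `D = 1` modulo `4`, squares modulo `7`, whose prime factors split completely in
`ℚ(i, √2, √-7)` or are inert in `ℚ(√2)` and in `ℚ(√-7)`, and are inert in the cyclotomic `ℤ₃`-extension of `ℚ`. A
family `d_1, …, d_n` of numbers of the class is good if an explicit matrix over `𝔽₂` is nonsingular for the squarefree
part of each product of the `d_i`. This is the case if the `d_i` have no prime factor which is `1` modulo `8`.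

* Let `F_∞` be the infinite real field generated by the layers of the cyclotomic `ℤ₃`-extension of `ℚ` and by the `√D`,
  `D > 0` in the class without prime factor `1` modulo `8`. EVERY number field `F ⊆ F_∞` is totally real, and the formula
  of the problem holds for `F`, `g_F` and `λ = 2`, both sides being zero.
* The same is true for every number field `F ⊆ K(√d_1, …, √d_n)`, for every good family of positive numbers `d_i` and
  every layer `K` of the cyclotomic `ℤ₃`-extension.
* `D` alone is good for a proportion of exactly `c = ∏_{i ≥ 0} (1 - 2^{-(2 i + 1)}) = 0.419...` of the positive `D` of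
  the class.

`H1f 2 W` (`Pool.Agent.Y667.BKP.H1f`) is the group of the classes of the continuous cocycles of the absolute
Galois group with values in `V_2 W` whose restriction to the completion at every place is in the image of the Kummer map;
this is the condition of Bloch and Kato.

The arithmetic of `E` over `K(√d_1, …, √d_n)` is the library `Pool/Agent/Y682` of the starting files (see
`Pool/Agent/Q274/XL/Base.lean`); the passage to all subfields is in `Pool/Agent/H249/TR`.
-/

set_option autoImplicit false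

open NumberField IsDedekindDomain

namespace Pool.Agent.Results.MP_6e2fc3_nt.AllSubfields

open scoped Classical
open Pool.Agent.Q274.XL
open Pool.Agent.Y667.BKP (H1f)

/-- The Euler factor at `v` of `L(g_F, s)` in the normalisation of the problem: `(1 - t_v q_v^(-s-1) + q_v^(-2s-1))⁻¹` at
the places prime to `14`, and `(1 - t_v q_v^(-s-1))⁻¹` at the places above `14`; `t_v = a E v`. -/
noncomputable def euler (F : Type) [Field F] [NumberField F] (s : ℂ) (v : HeightOneSpectrum (𝓞 F)) : ℂ :=
  (1 - (a E v : ℂ) * (Ideal.absNorm v.asIdeal : ℂ) ^ (-s - 1) +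
    if ((14 : ℤ) : 𝓞 F) ∈ v.asIdeal then 0 else (Ideal.absNorm v.asIdeal : ℂ) ^ (-2 * s - 1))⁻¹

/-- The formula of the problem for `F`, `g_F` and `λ = 2`, with both sides zero: `L(g_F, s)` (with all Euler factors) is
entire and of order `0` at `s = 0`, and `H¹_f(F, V_2 E) = 0`. -/
def Formula (F : Type) [Field F] [NumberField F] : Prop :=
  (base E F).IsElliptic ∧
    (∃ L : ℂ → ℂ, Differentiable ℂ L ∧ (∀ s : ℂ, 1 / 2 < s.re → HasProd (euler F s) (L s)) ∧
      analyticOrderAt L 0 = 0) ∧
    ∀ x : H1f 2 (base E F), x = 0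

/-- The numbers `d_1, …, d_n` are in the class, and for each of the `2^n` products the matrix `R D` of its squarefree
part `D` is nonsingular. -/
def Good {n : ℕ} (d : Fin n → ℤ) : Prop := (∀ i, Adm (d i)) ∧
  ∀ (T : Finset (Fin n)) (D k : ℤ), Adm D → ∏ i ∈ T, d i = D * k ^ 2 → (R D).det ≠ 0

lemma isElliptic (F : Type) [Field F] [NumberField F] : (base E F).IsElliptic := by
  refine ⟨?_⟩
  have h : (base E F).Δ = ((E.Δ : ℤ) : F) := WeierstrassCurve.map_Δ _ _
  rw [h, E_disc]
  exact IsUnit.mk0 _ (by norm_num)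

lemma euler_eq (F : Type) [Field F] [NumberField F] (s : ℂ) :
    euler F s = factor (K := F) E (s + 1) := by
  funext v
  unfold euler factor
  simp only [disc_mem]
  have e1 : -(s + 1) = -s - 1 := by ring
  have e2 : 1 - 2 * (s + 1) = -2 * s - 1 := by ring
  rw [e1, e2]

lemma formula_of (n : ℕ) (F : Type) [Field F] [NumberField F] (h : Holds F n) : Formula F := by
  obtain ⟨⟨L, h1, h2, h3⟩, a1, a2⟩ := h
  have hd : Differentiable ℂ fun s => L (s + 1) := h1.comp (differentiable_id.add_const 1)
  refine ⟨isElliptic F, ⟨fun s => L (s + 1), hd, fun s hs => ?_, ?_⟩,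
    Pool.Agent.Y667.BKP.h1f_zero Nat.prime_two a1 n a2⟩
  · rw [euler_eq]
    refine h2 (s + 1) ?_
    rw [Complex.add_re, Complex.one_re]
    norm_num at hs ⊢
    linarith
  · rw [(hd.analyticAt 0).analyticOrderAt_eq_zero]
    simpa using h3

lemma prod_class {n : ℕ} (d : Fin n → ℤ) (hd : ∀ i, Adm (d i)) (T : Finset (Fin n)) :
    ∃ C k : ℤ, Adm C ∧ k ≠ 0 ∧ ∏ i ∈ T, d i = C * k ^ 2 := by
  obtain ⟨C, k, h1, h2, h3, h4, -⟩ := Pool.Agent.Y682.YS.prodD d
    (fun i => ((adm_iff _).1 (hd i)).1) (fun i => ((adm_iff _).1 (hd i)).2) T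
  exact ⟨C, k, (adm_iff C).2 ⟨h1, h2⟩, h3, h4⟩

lemma det_of_empty {D : ℤ} (h : ∀ p : ℕ, p.Prime → (p : ℤ) ∣ D → p % 8 ≠ 1) : (R D).det ≠ 0 := by
  have hS : IsEmpty (S D) := by
    constructor
    rintro ⟨p, hp⟩
    unfold S at hp
    rw [Finset.mem_filter, Nat.mem_primeFactors] at hp
    exact h p hp.1.1 (Int.natCast_dvd.2 hp.1.2.1) hp.2
  rw [Matrix.det_isEmpty]
  exact one_ne_zero

lemma adm_one_of {D k : ℤ} (hD : Adm D) (h : 1 = D * k ^ 2) : D = 1 := by
  have hu : IsUnit D := isUnit_of_dvd_one (Dvd.intro _ h.symm)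
  rcases Int.isUnit_iff.1 hu with h | h
  · exact h
  · exfalso
    have := hD.2.1
    rw [h] at this
    norm_num at this

lemma fin1 (T : Finset (Fin 1)) : T = ∅ ∨ T = {0} := by
  revert T
  decide

lemma good_single {D : ℤ} (hD : Adm D) : Good (fun _ : Fin 1 => D) ↔ (R D).det ≠ 0 := by
  constructor
  · intro h
    exact h.2 {0} D 1 hD (by rw [Finset.prod_singleton]; ring)
  · intro h
    refine ⟨fun _ => hD, fun T D' k hD' he => ?_⟩
    rcases fin1 T with rfl | rfl
    · rw [Finset.prod_empty] at he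
      rw [adm_one_of hD' he]
      refine det_of_empty fun p hp hd => ?_
      exfalso
      have : (p : ℤ) ∣ ((1 : ℕ) : ℤ) := by simpa using hd
      rw [Int.natCast_dvd_natCast] at this
      exact hp.one_lt.ne' (Nat.dvd_one.1 this)
    · rw [Finset.prod_singleton] at he
      have h1 : D = D' := Pool.Agent.H249.TR.eq_of_sq (a := 1) (b := k) hD.1 hD'.1 one_ne_zero (by rw [he]; ring)
      rw [← h1]
      exact h

lemma good_of {n : ℕ} {d : Fin n → ℤ} (hA : ∀ i, Adm (d i))
    (h8 : ∀ (i : Fin n) (p : ℕ), p.Prime → (p : ℤ) ∣ d i → p % 8 ≠ 1) : Good d := by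
  refine ⟨hA, fun T D k hD he => det_of_empty fun p hp hd => ?_⟩
  have h1 : (p : ℤ) ∣ ∏ i ∈ T, d i := by
    rw [he]
    exact Dvd.dvd.mul_right hd _
  obtain ⟨i, -, hi⟩ := (Nat.prime_iff_prime_int.1 hp).exists_mem_finset_dvd h1
  exact h8 i p hp hi

/-- The field generated by the layers of the cyclotomic `ℤ₃`-extension of `ℚ` and by the square roots of the positive
numbers of the class without prime factor `1` modulo `8`. -/
noncomputable def Finf : IntermediateField ℚ ℂ := IntermediateField.adjoin ℚ
  ({z : ℂ | ∃ D : ℤ, (0 < D ∧ Adm D ∧ ∀ p : ℕ, p.Prime → (p : ℤ) ∣ D → p % 8 ≠ 1) ∧ z ^ 2 = (D : ℂ)} ∪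
    {z : ℂ | ∃ (m : ℕ) (K : IntermediateField ℚ ℂ), NumberField K ∧ K ≤ cyclotomic (3 ^ (m + 1)) ∧
      Odd (Module.finrank ℚ K) ∧ z ∈ K})

/-- **Theorem.** (1) Every number field `F` contained in the infinite field `Finf` is totally real, and the formula holds
for `F`, `g_F`, `λ = 2`.
(2) This is true for every good family of positive numbers `d_1, …, d_n`, every layer `K` of the cyclotomic
`ℤ₃`-extension of `ℚ` and every number field `F ⊆ K(√d_1, …, √d_n)`.
(3) The `D` which are good have the proportion `c` among the positive `D` of the class, `0.4194 < c < 0.4195`. -/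
theorem result :
    (∀ (F : IntermediateField ℚ ℂ) [NumberField F], F ≤ Finf → IsTotallyReal F ∧ Formula F) ∧
    (∀ (n : ℕ) (d : Fin n → ℤ), Good d → (∀ i, 0 < d i) → ∀ (m : ℕ) (K F : IntermediateField ℚ ℂ)
      [NumberField K] [NumberField F], K ≤ cyclotomic (3 ^ (m + 1)) → Odd (Module.finrank ℚ K) →
      F ≤ multiquadratic d ⊔ K → IsTotallyReal F ∧ Formula F) ∧
    Proportion (fun D => Good (fun _ : Fin 1 => D)) 1 cc ∧ 0.4194 < cc ∧ cc < 0.4195 := by
  obtain ⟨-, -, -, m4, m5⟩ := main Formula formula_of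
  have part2 : ∀ (n : ℕ) (d : Fin n → ℤ), Good d → (∀ i, 0 < d i) → ∀ (m : ℕ) (K F : IntermediateField ℚ ℂ)
      [NumberField K] [NumberField F], K ≤ cyclotomic (3 ^ (m + 1)) → Odd (Module.finrank ℚ K) →
      F ≤ multiquadratic d ⊔ K → IsTotallyReal F ∧ Formula F := by
    intro n d hd hpos m K F _ _ hK hodd hF
    obtain ⟨m', e, he1, he2, he3, he4, he5⟩ := Pool.Agent.H249.TR.sub_family Adm (fun D => (R D).det ≠ 0)
      (fun D h => h.1) (fun d hd T => prod_class d hd T) d hd.1 hd.2 K F (q := 3 ^ (m + 1))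
      (pow_ne_zero _ (by norm_num)) hK hodd hF
    have hle : F ⊓ K ≤ K := inf_le_right
    have hnf : NumberField ↥(F ⊓ K) := by
      have hfd : FiniteDimensional ℚ ↥(F ⊓ K) :=
        FiniteDimensional.of_injective (IntermediateField.inclusion hle).toLinearMap
          (IntermediateField.inclusion_injective hle)
      refine @NumberField.mk _ _ inferInstance ?_
      convert hfd
    have hodd' : Odd (Module.finrank ℚ ↥(F ⊓ K)) := by
      refine hodd.of_dvd_nat ?_
      have := IntermediateField.finrank_dvd_of_le_right hle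
      convert this
    have hreal : IsTotallyReal ↥(F ⊓ K) := Pool.Agent.H249.TR.cyclotomic_real (3 ^ (m + 1))
      (pow_ne_zero _ (by norm_num)) (F ⊓ K) (hle.trans hK) hodd'
    exact ⟨Pool.Agent.H249.TR.sup_real e (he4 hpos) (F ⊓ K) F he5,
      family_all formula_of e ⟨he1, he2, he3⟩ m (F ⊓ K) F (hle.trans hK) hodd' he5⟩
  refine ⟨?_, part2, ?_, m5⟩
  · intro F _ hF
    obtain ⟨n, d, m, K, h1, hnf, h2, h3, h4⟩ := Pool.Agent.H249.TR.inf_sub (q := 3) (by norm_num)
      (fun D => 0 < D ∧ Adm D ∧ ∀ p : ℕ, p.Prime → (p : ℤ) ∣ D → p % 8 ≠ 1) F hF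
    exact part2 n d (good_of (fun i => (h1 i).2.1) (fun i => (h1 i).2.2)) (fun i => (h1 i).1) m K F h2 h3 h4
  · have h := m4 1 (Or.inl rfl)
    unfold Proportion count at h ⊢
    have e : ∀ D : ℤ, (Adm D ∧ 0 < 1 * D ∧ Good (fun _ : Fin 1 => D)) ↔ (Adm D ∧ 0 < 1 * D ∧ (R D).det ≠ 0) :=
      fun D => and_congr_right fun hD => and_congr_right fun _ => good_single hD
    simp only [e]
    exact h

end Pool.Agent.Results.MP_6e2fc3_nt.AllSubfields
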