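import Pool.Agent.Results.MP_775b3b_nt.InfiniteMultiquadraticFields
import Pool.Agent.Y667.BKP.Main
import Pool.Agent.H249.TR.Sqrt
import Pool.Agent.H249.TR.Abs

/-!
# The Bloch–Kato formula for several Hilbert modular forms at once over all the number fields in an infinite totally
real field generated by the square roots of a set of primes of positive density

`E_M : y² = x³ - 2835 M² x - 71442 M³` is the quadratic twist by `M` of `X_0(49)`, with complex multiplication by the
maximal order of `ℚ(√-7)`; `g_M` is its newform, and for a totally real abelian field `F` also the base change of this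
form to `F`, a Hilbert newform of parallel weight two with rational Hecke eigenvalues and trivial central character;
`L(g_M, s) = L(E_M/F, s + 1)` and `V_{g_M, 2}` is the restriction of `V_2 E_M`. The class consists of the
squarefree positive integers whose prime factors are `1` modulo `4`; `D` is good if `E_D(ℚ)` is finite and
`Ш(E_D/ℚ)[2] = 0`.

Let `m_1, …, m_M` be different numbers of the class. The `D` of the class for which all `m_k D` are good have exactly
the proportion `κ ^ M`, `κ = ∏ (1 - 2 ^ (-2 i - 1)) = 0.4194…`. Let `D` be one of them, `N = m_1 ⋯ m_M D`. A prime `r ∤ N`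
is neutral if `r` is `1` modulo `4` and inert in `ℚ(√-7)`, and the primes of `N` which split in `ℚ(√-7)` are squares
modulo `r`. The neutral primes have the density `2 ^ (-s)`, `s` the number of the split primes of `N`, in the set of the
primes `r ≡ 1 mod 4` inert in `ℚ(√-7)`.

Let `L ⊂ ℝ` be the infinite extension of `ℚ` generated by the square roots of the neutral primes. Then EVERY number field
`F ⊆ L` is totally real, and for all `k` the formula of the problem holds for `F`, `g_{m_k D}` and `λ = 2`, both sides
being zero: `L(E_{m_k D}/F, s)` is entire and not zero at `s = 1`, and `H¹_f(F, V_2 E_{m_k D}) = 0`; moreover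
`E_{m_k D}(F)` has two elements. (The `L`-function is taken without finitely many Euler factors; these have neither zeros nor
poles at `s = 1`.)

The proportion, the density and the statements on `E_{m_k D}(F)`, `L(E_{m_k D}/F, s)` and `Ш` for the fields
`F = ℚ(√d_1, …, √d_n)`, `d_i` products of neutral primes, are the theorem `MP_775b3b_nt.InfiniteMultiquadraticFields` of
helper283; added here are `H¹_f` and the passage to all the subfields.

`H1f 2 W` (`Pool.Agent.Y667.BKP.H1f`, by helper667) is the group of the classes of the continuous cocycles of the absolute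
Galois group with values in `V_2 W = T_2 W ⊗ ℚ_2` whose restriction to the completion at every place is in the image of
the Kummer map; this is the condition of Bloch and Kato.
-/

set_option autoImplicit false

open NumberField IsDedekindDomain Filter

namespace Pool.Agent.Results.MP_6e2fc3_nt.InfiniteRealFields

open Pool.Agent.Results.MP_775b3b_nt.InfiniteMultiquadraticFields (E numPoints Good Class Inert splitPart Neutral count num
  κ IsL IsSubfield Holds)
open Pool.Agent.Y667.BKP (H1f)

/-- the field generated by the square roots of the neutral primes -/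
noncomputable def L (N : ℕ) : IntermediateField ℚ ℂ :=
  IntermediateField.adjoin ℚ {z : ℂ | ∃ r : ℕ, Neutral N r ∧ z ^ 2 = (r : ℂ)}

/-- The formula for `F`, `g_M` and `λ = 2`, with both sides zero: `E_M` is an elliptic curve, its `L`-function over `F`,
without the Euler factors above `42 M m` for some `m > 0`, extends to an entire function which is not zero at `1`, and
`H¹_f(F, V_2 E_M)` is zero. -/
def Formula (F : Type) [Field F] [NumberField F] (M : ℤ) : Prop :=
  (E F M).IsElliptic ∧ (∃ m : ℕ, 0 < m ∧ ∃ f : ℂ → ℂ, IsL F M m f ∧ f 1 ≠ 0) ∧ ∀ x : H1f 2 (E F M), x = 0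

lemma isElliptic (F : Type) [Field F] [NumberField F] {M : ℤ} (hM : M ≠ 0) : (E F M).IsElliptic := by
  have hM' : (M : F) ≠ 0 := by exact_mod_cast hM
  have h : (E F M).Δ = -(2 ^ 12 * 3 ^ 12 * 7 ^ 3 : ℤ) * (M : F) ^ 6 := by
    have e : (E F M).Δ = -16 * (4 * ((-2835 * M ^ 2 : ℤ) : F) ^ 3 + 27 * ((-71442 * M ^ 3 : ℤ) : F) ^ 2) := by
      simp only [E, Pool.Agent.Results.MP_775b3b_nt.InfiniteMultiquadraticFields.A,
        Pool.Agent.Results.MP_775b3b_nt.InfiniteMultiquadraticFields.B, WeierstrassCurve.Δ, WeierstrassCurve.b₂,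
        WeierstrassCurve.b₄, WeierstrassCurve.b₆, WeierstrassCurve.b₈]
      ring
    rw [e]
    push_cast
    ring
  refine ⟨?_⟩
  rw [h]
  refine IsUnit.mk0 _ (mul_ne_zero ?_ (pow_ne_zero _ hM'))
  exact_mod_cast (by norm_num : (-(2 ^ 12 * 3 ^ 12 * 7 ^ 3) : ℤ) ≠ 0)

lemma formula_of {n : ℕ} {d : Fin n → ℕ} (hd : ∀ i, d i ≠ 0) (F : Type) [Field F] [NumberField F] {M : ℤ} (hM : M ≠ 0)
    (h : Holds d F M) : numPoints F M = 2 ∧ Formula F M := by
  obtain ⟨h1, ⟨f, h2⟩, h3, -, h5⟩ := h
  refine ⟨h1, isElliptic F hM, ⟨∏ i, d i, ?_, f, h2, h3 f h2⟩, ?_⟩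
  · exact Finset.prod_pos fun i _ => Nat.pos_of_ne_zero (hd i)
  · have hfin : Finite (E F M).toAffine.Point := by
      apply Nat.finite_of_card_ne_zero
      unfold numPoints at h1
      rw [h1]
      norm_num
    exact Pool.Agent.Y667.BKP.h1f_zero Nat.prime_two hfin n (fun k x hx => h5 x k hx)

/-- the infinite degree -/
lemma infinite {N : ℕ} (h : ¬ FiniteDimensional ℚ (Pool.Agent.Results.MP_775b3b_nt.InfiniteMultiquadraticFields.L N)) :
    ¬ FiniteDimensional ℚ (L N) := by
  intro hfin
  apply h
  have hle : ∀ x ∈ Pool.Agent.Results.MP_775b3b_nt.InfiniteMultiquadraticFields.L N, (x : ℂ) ∈ L N := by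
    intro x hx
    induction hx using IntermediateField.adjoin_induction with
    | mem x h =>
      obtain ⟨r, hr, hx⟩ := h
      refine IntermediateField.subset_adjoin _ _ ⟨r, hr, ?_⟩
      rw [← Complex.ofReal_pow, hx]
      simp
    | algebraMap q =>
      have : ((algebraMap ℚ ℝ q : ℝ) : ℂ) = algebraMap ℚ ℂ q := by simp
      rw [this]
      exact IntermediateField.algebraMap_mem _ q
    | add x y _ _ h1 h2 => rw [Complex.ofReal_add]; exact add_mem h1 h2
    | inv x _ h1 => rw [Complex.ofReal_inv]; exact inv_mem h1
    | mul x y _ _ h1 h2 => rw [Complex.ofReal_mul]; exact mul_mem h1 h2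
  let f : Pool.Agent.Results.MP_775b3b_nt.InfiniteMultiquadraticFields.L N →+ L N :=
    { toFun := fun x => ⟨((x : ℝ) : ℂ), hle x x.2⟩
      map_zero' := Subtype.ext (by simp)
      map_add' := fun x y => Subtype.ext (by simp) }
  have hinj : Function.Injective f := fun x y hxy => by
    have := congrArg Subtype.val hxy
    exact Subtype.ext (Complex.ofReal_injective this)
  exact FiniteDimensional.of_injective (f.toRatLinearMap) hinj

/-- **Theorem.** Let `m_1, …, m_M` be different numbers of the class. The `D` of the class such that all `m_k D` are good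
have the proportion `κ ^ M`. For these `D` and `N = m_1 ⋯ m_M D` the neutral primes have the density `2 ^ (-s)` among
the primes `1` modulo `4` inert in `ℚ(√-7)`; the field `L` generated by their square roots is infinite; every number field
`F ⊆ L` is totally real, and for all `k` the group `E_{m_k D}(F)` has two elements and the formula holds for `F`,
`g_{m_k D}` and `λ = 2`. -/
theorem result (M : ℕ) (m : Fin M → ℕ) (hm : ∀ k, Class (m k)) (hinj : Function.Injective m) :
    Tendsto (fun X : ℕ => (count (fun D => ∀ k, Good (m k * D)) X : ℝ) /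
      (count (fun _ => True) X : ℝ)) atTop (nhds (κ ^ M)) ∧
    0.4194 < κ ∧ κ < 0.4195 ∧
    ∀ D : ℕ, Class D → (∀ k, Good (m k * D)) →
      Tendsto (fun X : ℕ => (num (Neutral ((∏ k, m k) * D)) X : ℝ) / (num Inert X : ℝ)) atTop
        (nhds ((1 / 2) ^ (splitPart ((∏ k, m k) * D)).card)) ∧
      ¬ FiniteDimensional ℚ (L ((∏ k, m k) * D)) ∧
      ∀ (F : IntermediateField ℚ ℂ) [NumberField F], F ≤ L ((∏ k, m k) * D) →
        IsTotallyReal F ∧ ∀ k, numPoints F (m k * D) = 2 ∧ Formula F (m k * D) := by
  obtain ⟨h1, h2, h3, h4⟩ :=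
    Pool.Agent.Results.MP_775b3b_nt.InfiniteMultiquadraticFields.result M m hm hinj
  refine ⟨h1, h2, h3, fun D hD hG => ?_⟩
  obtain ⟨g1, g2, -, g4⟩ := h4 D hD hG
  refine ⟨g1, infinite g2, fun F _ hF => ?_⟩
  obtain ⟨n, e, x, he, hind, hx, htop⟩ := Pool.Agent.H249.TR.sub_sqrt (Neutral ((∏ k, m k) * D))
    (fun r hr => hr.1.1) F hF
  have hpos : ∀ j, 0 < ((e j : ℕ) : ℤ) := fun j => by exact_mod_cast Nat.pos_of_ne_zero (he j).1.ne_zero
  refine ⟨Pool.Agent.H249.TR.totally_real_abs x (fun j => ((e j : ℕ) : ℤ)) hpos
    (fun j => by rw [hx j]; simp) htop, fun k => ?_⟩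
  have hM : ((m k : ℤ) * (D : ℤ)) ≠ 0 :=
    mul_ne_zero (by exact_mod_cast (hm k).1.ne_zero) (by exact_mod_cast hD.1.ne_zero)
  exact formula_of (fun j => (he j).1.ne_zero) F hM (g4 n e F ⟨he, hind, x, hx, htop⟩ k)

end Pool.Agent.Results.MP_6e2fc3_nt.InfiniteRealFields
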